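import Mathlib
import Pool.Agent.Helper40_Pisot.Conj

/-!
# Relations over the group ring and the Galois group

`GR d` is the group ring of `ℤ^d` over `ℚ`; `ev w` sends `X^v` to the power series `exp ((w·v) s)`.
If the vectors of power series `Γ β` (one for each root `β ≠ r` of the characteristic polynomial) have
the same constant term `V`, an eigenvector for `r`, then the `x ∈ (GR d)^d` with
`∑ ev (w β) (x a) * Γ β a = 0` for all `β` form a module of rank one.
-/

set_option autoImplicit false
set_option linter.unusedSectionVars false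

namespace Pool.Agent.PSC

open Matrix Polynomial Finset Pool.Agent.Helper40_Pisot

/-- the group ring of `ℤ^d` -/
abbrev GR (d : ℕ) : Type := AddMonoidAlgebra ℚ (Fin d → ℤ)

section ev

variable {d : ℕ} {K L : Type*} [Field K] [Algebra ℚ K] [Field L] [Algebra ℚ L]

/-- the exponent -/
def dot (w : Fin d → K) (v : Fin d → ℤ) : K := ∑ i, (v i : K) * w i

theorem dot_add (w : Fin d → K) (v v' : Fin d → ℤ) : dot w (v + v') = dot w v + dot w v' := by
  unfold dot
  rw [← Finset.sum_add_distrib]
  apply Finset.sum_congr rfl
  intro i _
  rw [Pi.add_apply, Int.cast_add, add_mul]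

theorem dot_zero (w : Fin d → K) : dot w 0 = 0 := by
  unfold dot
  simp

theorem dot_sub (w : Fin d → K) (v v' : Fin d → ℤ) : dot w (v - v') = dot w v - dot w v' := by
  have := dot_add w (v - v') v'
  rw [sub_add_cancel] at this
  rw [this, add_sub_cancel_right]

theorem map_dot (φ : K →+* L) (w : Fin d → K) (v : Fin d → ℤ) :
    φ (dot w v) = dot (fun i => φ (w i)) v := by
  unfold dot
  rw [map_sum]
  apply Finset.sum_congr rfl
  intro i _
  rw [map_mul, map_intCast]

/-- `X^v ↦ exp ((w·v) s)` -/
noncomputable def ev (w : Fin d → K) : GR d →ₐ[ℚ] PowerSeries K :=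
  AddMonoidAlgebra.lift ℚ (PowerSeries K) (Fin d → ℤ)
    { toFun := fun v => PowerSeries.rescale (dot w (Multiplicative.toAdd v)) (PowerSeries.exp K)
      map_one' := by
        rw [toAdd_one, dot_zero, PowerSeries.rescale_zero]
        simp
      map_mul' := by
        intro v v'
        rw [toAdd_mul, dot_add, PowerSeries.exp_mul_exp_eq_exp_add] }

theorem ev_single (w : Fin d → K) (v : Fin d → ℤ) (q : ℚ) :
    ev w (AddMonoidAlgebra.single v q) =
      q • PowerSeries.rescale (dot w v) (PowerSeries.exp K) := by
  unfold ev
  rw [AddMonoidAlgebra.lift_single]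
  rfl

theorem coeff_ev (w : Fin d → K) (x : GR d) (n : ℕ) :
    PowerSeries.coeff n (ev w x) =
      (x.coeff.sum fun v q => algebraMap ℚ K q * dot w v ^ n) * algebraMap ℚ K (1 / n.factorial) := by
  induction x using AddMonoidAlgebra.induction with
  | zero => simp
  | single_add a b f hf hb ih =>
    rw [map_add, map_add, ih, ev_single, AddMonoidAlgebra.coeff_add, AddMonoidAlgebra.coeff_single,
      Finsupp.sum_add_index', Finsupp.sum_single_index, add_mul]
    · congr 1
      rw [Algebra.smul_def, PowerSeries.algebraMap_apply, PowerSeries.coeff_C_mul,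
        PowerSeries.coeff_rescale, PowerSeries.coeff_exp]
      ring
    · rw [map_zero, zero_mul]
    · intro v
      rw [map_zero, zero_mul]
    · intro v q q'
      rw [map_add, add_mul]

theorem map_ev (φ : K →ₐ[ℚ] L) (w : Fin d → K) (x : GR d) :
    PowerSeries.map (φ : K →+* L) (ev w x) = ev (fun i => φ (w i)) x := by
  ext n
  rw [PowerSeries.coeff_map, coeff_ev, coeff_ev, map_mul]
  congr 1
  · rw [Finsupp.sum, map_sum, Finsupp.sum]
    apply Finset.sum_congr rfl
    intro v _
    rw [map_mul, map_pow, map_dot]
    congr 1
    exact φ.commutes _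
  · exact φ.commutes _

/-- `ev w` is injective if the entries of `w` are rationally independent -/
theorem ev_injective (w : Fin d → K) (hw : ∀ v : Fin d → ℤ, dot w v = 0 → v = 0) :
    Function.Injective (ev w) := by
  classical
  have : CharZero K := charZero_of_injective_algebraMap (algebraMap ℚ K).injective
  rw [injective_iff_map_eq_zero]
  intro x hx
  have h1 : ∀ n : ℕ, ∑ v ∈ x.coeff.support, algebraMap ℚ K (x.coeff v) * dot w v ^ n = 0 := by
    intro n
    have h2 := coeff_ev w x n
    rw [hx, map_zero] at h2
    have h3 : algebraMap ℚ K (1 / n.factorial) ≠ 0 := by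
      rw [Ne, map_eq_zero]
      positivity
    exact (mul_eq_zero.1 h2.symm).resolve_right h3
  have h2 : ∀ p : K[X], ∑ v ∈ x.coeff.support, algebraMap ℚ K (x.coeff v) * p.eval (dot w v) = 0 := by
    intro p
    induction p using Polynomial.induction_on' with
    | add p q hp hq =>
      simp_rw [Polynomial.eval_add, mul_add]
      rw [Finset.sum_add_distrib, hp, hq, add_zero]
    | monomial n c =>
      simp_rw [Polynomial.eval_monomial]
      have : ∀ v, algebraMap ℚ K (x.coeff v) * (c * dot w v ^ n) =
          c * (algebraMap ℚ K (x.coeff v) * dot w v ^ n) := fun v => by ring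
      simp_rw [this]
      rw [← Finset.mul_sum, h1, mul_zero]
  apply AddMonoidAlgebra.ext
  ext v₀
  rw [AddMonoidAlgebra.coeff_zero, Finsupp.zero_apply]
  by_contra hne
  have hv₀ : v₀ ∈ x.coeff.support := Finsupp.mem_support_iff.2 hne
  have h3 := h2 (∏ v ∈ x.coeff.support.erase v₀, (Polynomial.X - Polynomial.C (dot w v)))
  rw [Finset.sum_eq_single v₀] at h3
  · rw [Polynomial.eval_prod] at h3
    rcases mul_eq_zero.1 h3 with h | h
    · exact hne ((map_eq_zero _).1 h)
    · rw [Finset.prod_eq_zero_iff] at h
      obtain ⟨v, hv, h4⟩ := h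
      rw [Polynomial.eval_sub, Polynomial.eval_X, Polynomial.eval_C, ← dot_sub] at h4
      have h5 := hw _ h4
      exact (Finset.mem_erase.1 hv).1 (sub_eq_zero.1 h5).symm
  · intro v hv hne'
    rw [Polynomial.eval_prod]
    rw [Finset.prod_eq_zero (Finset.mem_erase.2 ⟨hne', hv⟩)]
    · rw [mul_zero]
    · simp
  · intro h
    exact absurd hv₀ h

end ev

section linear

variable {d : ℕ} {K : Type*} [Field K]

/-- a vector of power series which is orthogonal to vectors whose constant terms span is zero -/
theorem ps_zero {ι : Type*} (P : ι → Fin d → PowerSeries K)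
    (hP : ∀ z : Fin d → K, (∀ i, ∑ a, PowerSeries.constantCoeff (P i a) * z a = 0) → z = 0)
    (ζ : Fin d → PowerSeries K) (hζ : ∀ i, ∑ a, P i a * ζ a = 0) : ζ = 0 := by
  have key : ∀ n a, PowerSeries.coeff n (ζ a) = 0 := by
    intro n
    induction n using Nat.strong_induction_on with
    | _ n ih =>
      have h1 := hP (fun a => PowerSeries.coeff n (ζ a)) (by
        intro i
        have h2 := congrArg (PowerSeries.coeff n) (hζ i)
        rw [map_sum, map_zero] at h2
        rw [← h2]
        apply Finset.sum_congr rfl
        intro a _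
        rw [PowerSeries.coeff_mul, Finset.sum_eq_single (0, n)]
        · rw [PowerSeries.coeff_zero_eq_constantCoeff_apply]
        · rintro ⟨p, q⟩ hpq hne
          rw [Finset.HasAntidiagonal.mem_antidiagonal] at hpq
          have hq : q < n := by
            by_contra hcon
            apply hne
            simp only [Prod.mk.injEq]
            simp only at hpq
            omega
          rw [ih q hq, mul_zero]
        · intro h
          exact absurd (by simp) h)
      intro a
      exact congrFun h1 a
  funext a
  ext n
  rw [key n a]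
  simp

/-- rank one -/
theorem rank_one {ι : Type*} (P : ι → Fin d → PowerSeries K) (i₀ : ι)
    (hP : ∀ z : Fin d → K, (∀ i, ∑ a, PowerSeries.constantCoeff (P i a) * z a = 0) → z = 0)
    (ξ η : Fin d → PowerSeries K) (hξ : ∀ i, i ≠ i₀ → ∑ a, P i a * ξ a = 0)
    (hη : ∀ i, i ≠ i₀ → ∑ a, P i a * η a = 0) (hη0 : η ≠ 0) (a b : Fin d) :
    ξ a * η b = ξ b * η a := by
  set s := ∑ a, P i₀ a * ξ a with hs
  set t := ∑ a, P i₀ a * η a with ht
  have h1 : (fun a => t * ξ a - s * η a) = 0 := by
    apply ps_zero P hP
    intro i
    have e : ∑ a, P i a * (t * ξ a - s * η a) = t * ∑ a, P i a * ξ a - s * ∑ a, P i a * η a := by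
      rw [Finset.mul_sum, Finset.mul_sum, ← Finset.sum_sub_distrib]
      apply Finset.sum_congr rfl
      intro a _
      ring
    rw [e]
    by_cases hi : i = i₀
    · subst hi
      rw [← hs, ← ht]
      ring
    · rw [hξ i hi, hη i hi, mul_zero, mul_zero, sub_zero]
  have h2 : ∀ a, t * ξ a = s * η a := fun a => sub_eq_zero.1 (congrFun h1 a)
  have ht0 : t ≠ 0 := by
    intro h
    apply hη0
    apply ps_zero P hP
    intro i
    by_cases hi : i = i₀
    · subst hi
      exact h
    · exact hη i hi
  apply mul_left_cancel₀ ht0
  calc t * (ξ a * η b) = (t * ξ a) * η b := by ring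
    _ = (t * ξ b) * η a := by rw [h2 a, h2 b]; ring
    _ = _ := by ring

/-- a vector which is orthogonal to eigenvectors for all the eigenvalues is zero -/
theorem orth_zero (M : Matrix (Fin d) (Fin d) K) (S : Finset K) (hS : S.card = d) (v : K → Fin d → K)
    (hv : ∀ α ∈ S, M *ᵥ v α = α • v α) (hv0 : ∀ α ∈ S, v α ≠ 0) (z : Fin d → K)
    (hz : ∀ α ∈ S, ∑ a, v α a * z a = 0) : z = 0 := by
  classical
  have hind : LinearIndependent K (fun α : S => v α) := by
    apply Module.End.eigenvectors_linearIndependent' (Matrix.toLin' M) (fun α : S => (α : K))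
      Subtype.val_injective
    intro α
    refine ⟨?_, hv0 α α.2⟩
    rw [Module.End.mem_eigenspace_iff, Matrix.toLin'_apply]
    exact hv α α.2
  have hcard : Fintype.card S = Module.finrank K (Fin d → K) := by
    rw [Fintype.card_coe, hS, Module.finrank_fin_fun]
  by_cases hd : Nonempty S
  · let B := basisOfLinearIndependentOfCardEqFinrank hind hcard
    let L : (Fin d → K) →ₗ[K] K :=
      { toFun := fun y => ∑ a, y a * z a
        map_add' := by
          intro y y'
          simp only [Pi.add_apply, add_mul, Finset.sum_add_distrib]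
        map_smul' := by
          intro c y
          simp only [Pi.smul_apply, smul_eq_mul, RingHom.id_apply, Finset.mul_sum, mul_assoc] }
    have hL : L = 0 := by
      apply B.ext
      intro α
      rw [coe_basisOfLinearIndependentOfCardEqFinrank]
      exact hz α α.2
    funext a
    have h1 : L (Pi.single a 1) = z a := by
      change ∑ b, (Pi.single a (1 : K) : Fin d → K) b * z b = z a
      rw [Finset.sum_eq_single a]
      · rw [Pi.single_eq_same, one_mul]
      · intro b _ hb
        rw [Pi.single_eq_of_ne hb, zero_mul]
      · intro h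
        exact absurd (Finset.mem_univ a) h
    rw [← h1, hL]
    rfl
  · have hd0 : d = 0 := by
      rw [← hS, Finset.card_eq_zero]
      by_contra hne
      exact hd (Finset.nonempty_iff_ne_empty.2 hne).to_subtype
    subst hd0
    exact Subsingleton.elim _ _

end linear

end Pool.Agent.PSC
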