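import Pool.Agent.Helper33_PSC.Gal
import Pool.Agent.Helper95_PSC.Stmts

/-!
The Galois argument for translation relations.
-/

set_option autoImplicit false
set_option linter.unusedSectionVars false

namespace Pool.Agent.PSC.H33

open Matrix Polynomial Finset Pool.Agent.Helper40_Pisot Pool.Agent.PSC

section bridge

variable {m : ℕ} {K : Type*} [Field K] [Algebra ℚ K]

theorem pair_eq (W : Fin (m + 1) → K) (v : Lat m) : pair W v = dot W v := by
  unfold pair dot
  exact Finset.sum_congr rfl fun i _ => mul_comm _ _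

theorem evS_eq (W : Fin (m + 1) → K) (x : R m) : evS W x = ev W x := by
  ext n
  rw [coeff_ev]
  unfold evS eS
  rw [Finsupp.sum, map_sum, Finsupp.sum, Finset.sum_mul]
  apply Finset.sum_congr rfl
  intro v _
  rw [PowerSeries.coeff_C_mul, PowerSeries.coeff_rescale, PowerSeries.coeff_exp, pair_eq, mul_assoc]

end bridge

section indep

variable {d : ℕ} {K : Type*} [Field K] [Algebra ℚ K]

/-- a left eigenvector has rationally independent entries -/
theorem dot_indep (M : Matrix (Fin d) (Fin d) ℤ)
    (irr : Irreducible (M.charpoly.map (Int.castRingHom ℚ))) (w : Fin d → K) (β : K)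
    (hw : ∀ j, ∑ i, w i * (M i j : K) = β * w j) (hw0 : w ≠ 0) (v : Fin d → ℤ)
    (hv : dot w v = 0) : v = 0 := by
  classical
  by_contra hv0
  set B : Matrix (Fin d) (Fin d) ℚ := M.map (Int.castRingHom ℚ) with hB
  have irrB : Irreducible B.charpoly := by
    rw [hB, Matrix.charpoly_map]
    exact irr
  let L : (Fin d → ℚ) →ₗ[ℚ] K :=
    { toFun := fun u => ∑ j, algebraMap ℚ K (u j) * w j
      map_add' := by
        intro u u'
        simp only [Pi.add_apply, map_add, add_mul, Finset.sum_add_distrib]
      map_smul' := by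
        intro c u
        simp only [Pi.smul_apply, smul_eq_mul, map_mul, RingHom.id_apply]
        rw [Algebra.smul_def, Finset.mul_sum]
        refine Finset.sum_congr rfl fun j _ => ?_
        rw [mul_assoc] }
  have hL : ∀ u, L u = ∑ j, algebraMap ℚ K (u j) * w j := fun u => rfl
  have hLB : ∀ u, L (B *ᵥ u) = β * L u := by
    intro u
    rw [hL, hL]
    have h1 : ∀ i, algebraMap ℚ K ((B *ᵥ u) i) = ∑ j, (M i j : K) * algebraMap ℚ K (u j) := by
      intro i
      rw [Matrix.mulVec, dotProduct, map_sum]
      refine Finset.sum_congr rfl fun j _ => ?_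
      rw [map_mul]
      congr 1
      rw [hB, Matrix.map_apply, eq_intCast, map_intCast]
    simp_rw [h1, Finset.sum_mul]
    rw [Finset.sum_comm, Finset.mul_sum]
    refine Finset.sum_congr rfl fun j _ => ?_
    have h2 := hw j
    calc ∑ i, (M i j : K) * algebraMap ℚ K (u j) * w i
        = algebraMap ℚ K (u j) * ∑ i, w i * (M i j : K) := by
          rw [Finset.mul_sum]
          exact Finset.sum_congr rfl fun i _ => by ring
      _ = β * (algebraMap ℚ K (u j) * w j) := by rw [h2]; ring
  set e : Fin d → ℚ := fun i => (v i : ℚ) with he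
  have he0 : e ≠ 0 := by
    intro h0
    apply hv0
    funext i
    have := congrFun h0 i
    rw [he] at this
    simpa using this
  have hLe : L e = 0 := by
    rw [hL, ← hv]
    unfold dot
    refine Finset.sum_congr rfl fun j _ => ?_
    rw [he]
    simp only
    rw [map_intCast]
  have hpow : ∀ k : ℕ, L (B ^ k *ᵥ e) = 0 := by
    intro k
    induction k with
    | zero => rw [pow_zero, Matrix.one_mulVec, hLe]
    | succ k ih => rw [pow_succ', ← Matrix.mulVec_mulVec, hLB, ih, mul_zero]
  apply hw0
  funext j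
  obtain ⟨f, hf⟩ := cyclic B irrB e he0 (Pi.single j 1)
  have h1 : L (Pi.single j 1) = w j := by
    rw [hL, Finset.sum_eq_single j]
    · simp
    · intro b _ hb
      rw [Pi.single_eq_of_ne hb, map_zero, zero_mul]
    · intro hj
      exact absurd (Finset.mem_univ j) hj
  rw [Pi.zero_apply, ← h1, hf, aeval_eq_sum_range, Matrix.sum_mulVec, map_sum]
  refine Finset.sum_eq_zero fun k _ => ?_
  rw [Matrix.smul_mulVec, map_smul, hpow, Algebra.smul_def, mul_zero]

/-- existence of left eigenvectors -/
theorem exists_left (M : Matrix (Fin d) (Fin d) ℤ) (β : K) (hβ : aeval β M.charpoly = 0) :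
    ∃ w : Fin d → K, w ≠ 0 ∧ ∀ j, ∑ i, w i * (M i j : K) = β * w j := by
  classical
  have h1 : (Matrix.scalar (Fin d) β - M.map (Int.castRingHom K)).det = 0 := by
    rw [← Matrix.eval_charpoly, Matrix.charpoly_map, Polynomial.eval_map]
    rw [Polynomial.aeval_def] at hβ
    exact hβ
  obtain ⟨w, hw0, hw⟩ := Matrix.exists_vecMul_eq_zero_iff.2 h1
  refine ⟨w, hw0, fun j => ?_⟩
  have h2 := congrFun hw j
  rw [Matrix.vecMul_sub, Pi.sub_apply, Pi.zero_apply, sub_eq_zero] at h2
  rw [Matrix.scalar_apply, Matrix.vecMul_diagonal] at h2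
  rw [mul_comm β, h2]
  rfl

end indep

section functional

variable {K L : Type*} [Field K] [Field L] [Algebra K L]

/-- a functional applied to the coefficients -/
noncomputable def fc (f : L →ₗ[K] K) (Γ : PowerSeries L) : PowerSeries K :=
  PowerSeries.mk fun n => f (PowerSeries.coeff n Γ)

theorem coeff_fc (f : L →ₗ[K] K) (Γ : PowerSeries L) (n : ℕ) :
    PowerSeries.coeff n (fc f Γ) = f (PowerSeries.coeff n Γ) := by
  unfold fc
  rw [PowerSeries.coeff_mk]

theorem fc_sum (f : L →ₗ[K] K) {ι : Type*} (s : Finset ι) (Γ : ι → PowerSeries L) :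
    fc f (∑ i ∈ s, Γ i) = ∑ i ∈ s, fc f (Γ i) := by
  ext n
  rw [coeff_fc, map_sum, map_sum, map_sum]
  exact Finset.sum_congr rfl fun i _ => (coeff_fc _ _ _).symm

theorem fc_mul (f : L →ₗ[K] K) (g : PowerSeries K) (Γ : PowerSeries L) :
    fc f (PowerSeries.map (algebraMap K L) g * Γ) = g * fc f Γ := by
  ext n
  rw [coeff_fc, PowerSeries.coeff_mul, PowerSeries.coeff_mul, map_sum]
  refine Finset.sum_congr rfl fun p _ => ?_
  rw [PowerSeries.coeff_map, coeff_fc, ← Algebra.smul_def, map_smul, smul_eq_mul]

end functional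

end Pool.Agent.PSC.H33
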