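import Pool.Agent.Helper33_PSC.Gal2

/-!
The Galois argument for translation relations: final assembly.
-/

set_option autoImplicit false
set_option linter.unusedSectionVars false

namespace Pool.Agent.PSC.H33

open Matrix Polynomial Finset Pool.Agent.Helper40_Pisot Pool.Agent.PSC

section core

variable {m : ℕ} {K : Type*} [Field K] [Algebra ℚ K] [IsAlgClosed K] [Algebra.IsAlgebraic ℚ K]
  [Algebra K ℂ] [IsScalarTower ℚ K ℂ]

theorem aeval_map_eq {F : Type*} [Field F] [Algebra ℚ F] (p : ℤ[X]) (z : F) :
    aeval z (p.map (Int.castRingHom ℚ)) = aeval z p := by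
  rw [Polynomial.aeval_def, Polynomial.eval₂_map, Polynomial.aeval_def]
  congr 1
  exact RingHom.ext_int _ _

theorem aeval_emb {F G : Type*} [Field F] [Field G] (φ : F →+* G) (p : ℤ[X]) (z : F) :
    aeval (φ z) p = φ (aeval z p) := by
  rw [Polynomial.aeval_def, Polynomial.aeval_def, Polynomial.hom_eval₂]
  congr 1
  exact RingHom.ext_int _ _

/-- complex roots are algebraic -/
theorem root_lift (p : ℤ[X]) (hp : p.Monic) (z : ℂ) (hz : aeval z p = 0) :
    ∃ y : K, algebraMap K ℂ y = z ∧ aeval y p = 0 := by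
  have h1 := IsAlgClosed.splits (p.map (Int.castRingHom K))
  have h2 : (p.map (Int.castRingHom K)) ≠ 0 := (hp.map _).ne_zero
  obtain ⟨y, hy⟩ := h1.mem_range_of_isRoot h2 (i := algebraMap K ℂ) (x := z) (by
    rw [Polynomial.IsRoot, Polynomial.map_map, Polynomial.eval_map]
    rw [Polynomial.aeval_def] at hz
    rw [← hz]
    congr 1
    exact RingHom.ext_int _ _)
  refine ⟨y, hy, ?_⟩
  apply (algebraMap K ℂ).injective
  rw [map_zero, ← aeval_emb, hy, hz]

/-- all the roots are conjugate -/
theorem exists_auto (p : ℤ[X]) (hp : p.Monic) (irr : Irreducible (p.map (Int.castRingHom ℚ)))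
    (x y : K) (hx : aeval x p = 0) (hy : aeval y p = 0) : ∃ ψ : K ≃ₐ[ℚ] K, ψ x = y := by
  have h1 : ∀ z : K, aeval z p = 0 → minpoly ℚ z = p.map (Int.castRingHom ℚ) := by
    intro z hz
    exact (minpoly.eq_of_irreducible_of_monic irr (by rw [aeval_map_eq]; exact hz) (hp.map _)).symm
  have hC : IsAlgClosure ℚ K := ⟨inferInstance, inferInstance⟩
  have hN : Normal ℚ K := IsAlgClosure.normal ℚ K
  have h2 : IsConjRoot ℚ y x := by
    rw [IsConjRoot, h1 x hx, h1 y hy]
  exact isConjRoot_iff_exists_algEquiv.1 h2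

/-- the set of roots -/
theorem exists_roots (M : Matrix (Fin (m + 1)) (Fin (m + 1)) ℤ)
    (irr : Irreducible (M.charpoly.map (Int.castRingHom ℚ))) :
    ∃ S : Finset K, S.card = m + 1 ∧ ∀ z, z ∈ S ↔ aeval z M.charpoly = 0 := by
  classical
  have hne : (M.charpoly.map (Int.castRingHom ℚ)) ≠ 0 :=
    ((Matrix.charpoly_monic M).map _).ne_zero
  refine ⟨((M.charpoly.map (Int.castRingHom ℚ)).aroots K).toFinset, ?_, ?_⟩
  · have h1 := card_rootSet_eq_natDegree (K := K) irr.separable (IsAlgClosed.splits _)
    simp_rw [rootSet_def, Finset.coe_sort_coe, Fintype.card_coe] at h1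
    rw [h1, (Matrix.charpoly_monic M).natDegree_map, Matrix.charpoly_natDegree_eq_dim,
      Fintype.card_fin]
  · intro z
    rw [Multiset.mem_toFinset, Polynomial.mem_aroots, aeval_map_eq]
    exact ⟨fun h => h.2, fun h => ⟨hne, h⟩⟩

end core

/-- the vectors of power series -/
theorem gal_core {m : ℕ} (K : Type*) [Field K] [Algebra ℚ K] [IsAlgClosed K]
    [Algebra.IsAlgebraic ℚ K] [Algebra K ℂ] [IsScalarTower ℚ K ℂ] (M : Matrix (Fin (m + 1)) (Fin (m + 1)) ℤ)
    (irr : Irreducible (M.charpoly.map (Int.castRingHom ℚ))) (r : ℂ)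
    (hr : aeval r M.charpoly = 0) (V : Fin (m + 1) → ℂ) (a0 : Fin (m + 1)) (hV0 : V a0 ≠ 0)
    (hV : ∀ i, ∑ j, (M i j : ℂ) * V j = r * V i) (x y : Fin (m + 1) → R m) (hy0 : y ≠ 0)
    (hrel : ∀ β : ℂ, aeval β M.charpoly = 0 → β ≠ r →
      ∀ W : Fin (m + 1) → ℂ, LeftEig M β W →
      ∃ G : Fin (m + 1) → PowerSeries ℂ, (∀ a, PowerSeries.constantCoeff (G a) = V a) ∧
        ∑ a, evS W (x a) * G a = 0 ∧ ∑ a, evS W (y a) * G a = 0) :
    ∀ a b, x a * y b = x b * y a := by
  classical
  obtain ⟨lam, hlam, hlam0⟩ := root_lift (K := K) M.charpoly (Matrix.charpoly_monic M) r hr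
  obtain ⟨w, hw0, hw⟩ := exists_left M lam hlam0
  obtain ⟨S, hSc, hS⟩ := exists_roots (K := K) M irr
  -- the functional
  obtain ⟨f, hf⟩ : ∃ f : ℂ →ₗ[K] K, f (V a0) ≠ 0 := by
    by_contra hcon
    push Not at hcon
    exact hV0 ((Module.forall_dual_apply_eq_zero_iff K (V a0)).1 hcon)
  set U : Fin (m + 1) → K := fun a => f (V a) with hU
  have hUe : ∀ i, ∑ j, (M i j : K) * U j = lam * U i := by
    intro i
    have h1 := congrArg f (hV i)
    rw [map_sum, ← hlam, ← Algebra.smul_def, map_smul, smul_eq_mul] at h1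
    rw [hU]
    simp only
    rw [← h1]
    apply Finset.sum_congr rfl
    intro j _
    have h2 : ((M i j : ℤ) : ℂ) = algebraMap K ℂ ((M i j : ℤ) : K) := (map_intCast _ _).symm
    rw [h2, ← Algebra.smul_def, map_smul, smul_eq_mul]
  -- automorphisms
  have hψ : ∀ α : K, ∃ ψ : K ≃ₐ[ℚ] K, aeval α M.charpoly = 0 → ψ lam = α := by
    intro α
    by_cases h : aeval α M.charpoly = 0
    · obtain ⟨ψ, h1⟩ := exists_auto (K := K) M.charpoly (Matrix.charpoly_monic M) irr lam α hlam0 h
      exact ⟨ψ, fun _ => h1⟩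
    · exact ⟨AlgEquiv.refl, fun h' => absurd h' h⟩
  choose ψ hψ using hψ
  -- the rows
  have hP : ∀ α : K, ∃ P : Fin (m + 1) → PowerSeries K,
      (α ∈ S → ∃ v : Fin (m + 1) → K, v ≠ 0 ∧ (∀ a, PowerSeries.constantCoeff (P a) = v a) ∧
        (∀ i, ∑ j, (M i j : K) * v j = α * v i) ∧
        (α ≠ lam → ∑ a, P a * evS w (x a) = 0 ∧ ∑ a, P a * evS w (y a) = 0)) := by
    intro α
    by_cases hα : α ∈ S
    · by_cases hαl : α = lam
      · refine ⟨fun a => PowerSeries.C (U a), fun _ => ⟨U, ?_, ?_, ?_, ?_⟩⟩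
        · intro h
          exact hf (congrFun h a0)
        · intro a
          exact PowerSeries.constantCoeff_C _
        · rw [hαl]
          exact hUe
        · intro h
          exact absurd hαl h
      · have hα0 := (hS α).1 hα
        have hψα := hψ α hα0
        set φ := (ψ α).symm with hφ
        set β := φ lam with hβ
        have hβ0 : aeval β M.charpoly = 0 := by
          rw [hβ]
          have h1 := aeval_emb (φ : K →+* K) M.charpoly lam
          rw [hlam0, map_zero] at h1
          exact h1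
        have hβl : β ≠ lam := by
          intro h
          apply hαl
          rw [hβ, hφ] at h
          have h2 : lam = ψ α lam := by
            have h3 := congrArg (ψ α) h
            rw [AlgEquiv.apply_symm_apply] at h3
            exact h3
          rw [h2, hψα]
        have hβ0' : aeval (algebraMap K ℂ β) M.charpoly = 0 := by
          rw [aeval_emb, hβ0, map_zero]
        have hβr : algebraMap K ℂ β ≠ r := by
          intro h
          apply hβl
          apply (algebraMap K ℂ).injective
          rw [h, hlam]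
        have hwβ : ∀ j, ∑ i, φ (w i) * (M i j : K) = β * φ (w j) := by
          intro j
          have h1 := congrArg φ (hw j)
          rw [map_sum, map_mul] at h1
          rw [hβ, ← h1]
          apply Finset.sum_congr rfl
          intro i _
          rw [map_mul, map_intCast]
        have hWe : LeftEig M (algebraMap K ℂ β) (fun i => algebraMap K ℂ (φ (w i))) := by
          intro j
          have h1 := congrArg (algebraMap K ℂ) (hwβ j)
          rw [map_sum, map_mul] at h1
          rw [← h1]
          apply Finset.sum_congr rfl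
          intro i _
          rw [map_mul, map_intCast]
        obtain ⟨G, hG0, hGx, hGy⟩ := hrel _ hβ0' hβr _ hWe
        have hmv : ∀ z : Fin (m + 1) → R m,
            ∑ a, evS (fun i => algebraMap K ℂ (φ (w i))) (z a) * G a = 0 →
            ∑ a, PowerSeries.map ((ψ α : K ≃ₐ[ℚ] K) : K →+* K) (fc f (G a)) * evS w (z a) = 0 := by
          intro z hz
          have e1 : ∀ a, evS (fun i => algebraMap K ℂ (φ (w i))) (z a) =
              PowerSeries.map (algebraMap K ℂ) (evS (fun i => φ (w i)) (z a)) := by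
            intro a
            rw [evS_eq, evS_eq]
            exact (map_ev (IsScalarTower.toAlgHom ℚ K ℂ) (fun i => φ (w i)) (z a)).symm
          have h1 := congrArg (fc f) hz
          rw [fc_sum] at h1
          have h2 : fc f (0 : PowerSeries ℂ) = 0 := by
            ext n
            rw [coeff_fc, map_zero, map_zero, map_zero]
          rw [h2] at h1
          have h3 : ∑ a, evS (fun i => φ (w i)) (z a) * fc f (G a) = 0 := by
            rw [← h1]
            apply Finset.sum_congr rfl
            intro a _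
            rw [e1, fc_mul]
          have h4 := congrArg (PowerSeries.map ((ψ α : K ≃ₐ[ℚ] K) : K →+* K)) h3
          rw [map_sum, map_zero] at h4
          rw [← h4]
          apply Finset.sum_congr rfl
          intro a _
          rw [map_mul, mul_comm]
          congr 1
          rw [evS_eq, evS_eq]
          have h5 := map_ev ((ψ α : K ≃ₐ[ℚ] K) : K →ₐ[ℚ] K) (fun i => φ (w i)) (z a)
          have h6 : (fun i => ((ψ α : K ≃ₐ[ℚ] K) : K →ₐ[ℚ] K) (φ (w i))) = w := by
            funext i
            exact AlgEquiv.apply_symm_apply _ _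
          rw [h6] at h5
          exact h5.symm
        refine ⟨fun a => PowerSeries.map ((ψ α : K ≃ₐ[ℚ] K) : K →+* K) (fc f (G a)), fun _ =>
          ⟨fun a => ψ α (U a), ?_, ?_, ?_, fun _ => ⟨hmv x hGx, hmv y hGy⟩⟩⟩
        · intro h
          have h1 := congrFun h a0
          simp only [Pi.zero_apply] at h1
          rw [map_eq_zero] at h1
          exact hf h1
        · intro a
          rw [← PowerSeries.coeff_zero_eq_constantCoeff_apply, PowerSeries.coeff_map, coeff_fc,
            PowerSeries.coeff_zero_eq_constantCoeff_apply, hG0]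
          rfl
        · intro i
          have h1 := congrArg (ψ α) (hUe i)
          rw [map_sum, map_mul, hψα] at h1
          rw [← h1]
          apply Finset.sum_congr rfl
          intro j _
          rw [map_mul, map_intCast]
    · exact ⟨0, fun h => absurd h hα⟩
  choose P hP using hP
  have hlS : lam ∈ S := (hS lam).2 hlam0
  have hv : ∀ α : K, ∃ v : Fin (m + 1) → K, α ∈ S → v ≠ 0 ∧
      (∀ a, PowerSeries.constantCoeff (P α a) = v a) ∧
      (∀ i, ∑ j, (M i j : K) * v j = α * v i) := by
    intro α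
    by_cases hα : α ∈ S
    · obtain ⟨v, h1, h2, h3, _⟩ := hP α hα
      exact ⟨v, fun _ => ⟨h1, h2, h3⟩⟩
    · exact ⟨0, fun h => absurd h hα⟩
  choose v hv using hv
  have hspan : ∀ z : Fin (m + 1) → K,
      (∀ i : S, ∑ a, PowerSeries.constantCoeff (P i a) * z a = 0) → z = 0 := by
    intro z hz
    apply orth_zero (M.map (Int.castRingHom K)) S hSc v
    · intro α hα
      funext i
      rw [Pi.smul_apply, smul_eq_mul, ← (hv α hα).2.2 i, Matrix.mulVec, dotProduct]
      rfl
    · intro α hα
      exact (hv α hα).1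
    · intro α hα
      rw [← hz ⟨α, hα⟩]
      apply Finset.sum_congr rfl
      intro a _
      rw [(hv α hα).2.1 a]
  have hinj : Function.Injective (ev w : GR (m + 1) →ₐ[ℚ] PowerSeries K) :=
    ev_injective w (fun u hu => dot_indep M irr w lam hw hw0 u hu)
  have key := rank_one (fun i : S => P i) ⟨lam, hlS⟩ hspan (fun a => evS w (x a))
    (fun a => evS w (y a))
    (by
      rintro ⟨α, hα⟩ hne
      obtain ⟨_, _, _, _, h4⟩ := hP α hα
      exact (h4 (fun h => hne (Subtype.ext h))).1)
    (by
      rintro ⟨α, hα⟩ hne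
      obtain ⟨_, _, _, _, h4⟩ := hP α hα
      exact (h4 (fun h => hne (Subtype.ext h))).2)
    (by
      intro h
      apply hy0
      funext a
      have h1 := congrFun h a
      simp only [Pi.zero_apply] at h1
      rw [evS_eq] at h1
      exact hinj (h1.trans (map_zero _).symm))
  intro a b
  have h1 := key a b
  simp only [evS_eq] at h1
  rw [← map_mul, ← map_mul] at h1
  exact hinj h1

/-- the algebraic numbers -/
theorem exists_field : ∃ (K : Type) (_ : Field K) (_ : Algebra ℚ K) (_ : Algebra K ℂ),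
    IsAlgClosed K ∧ Algebra.IsAlgebraic ℚ K ∧ IsScalarTower ℚ K ℂ := by
  let h1 : Algebra ℚ (AlgebraicClosure ℚ) := AlgebraicClosure.instAlgebra ℚ
  have h2 : @Algebra.IsAlgebraic ℚ (AlgebraicClosure ℚ) _ _ h1 := AlgebraicClosure.isAlgebraic ℚ
  have h3 : IsAlgClosed (AlgebraicClosure ℚ) := inferInstance
  let ι : AlgebraicClosure ℚ →ₐ[ℚ] ℂ := IsAlgClosed.lift
  let h4 : Algebra (AlgebraicClosure ℚ) ℂ := ι.toRingHom.toAlgebra
  refine ⟨AlgebraicClosure ℚ, inferInstance, h1, h4, h3, h2, ?_⟩
  exact IsScalarTower.of_algebraMap_eq (fun q => (ι.commutes q).symm)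

/-- The Galois argument. -/
theorem galois : GaloisStmt := by
  intro m M r hM V hV0 hV x y hrel
  by_cases hy0 : y = 0
  · intro a b
    rw [hy0]
    simp
  obtain ⟨K, i1, i2, i3, i4, i5, i6⟩ := exists_field
  refine gal_core K M hM.irr (r : ℂ) hM.root (fun a => ((V a : ℝ) : ℂ)) 0 ?_ ?_ x y hy0 hrel
  · rw [Ne, Complex.ofReal_eq_zero]
    exact (hV0 0).ne'
  · intro i
    have h1 := congrArg Complex.ofReal (hV i)
    push_cast at h1
    exact h1

end Pool.Agent.PSC.H33
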